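import Pool.Agent.H94.LP4.M53
import Pool.Agent.H94.LP4.M66

/-!
# Reindexing, the components of a curve, nine points
-/

namespace Pool.Agent.H74.KV

open MvPolynomial Pool.Agent.H18.Fat Pool.Agent.H18.Ub Pool.Agent.H22.LU Pool.Agent.H74.CT Pool.Agent.H18.Nef

theorem fat_comp {r e : ℕ} {ι κ : Type*} (σ : ι → κ) (P : κ → Fin (r + 1) → ℂ) (k : κ → ℕ)
    (hk : ∀ i, i ∉ Set.range σ → k i = 0) :
    fatForms r e (fun i => P (σ i)) (fun i => k (σ i)) = fatForms r e P k := by
  ext F
  constructor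
  · intro h
    refine ⟨h.1, fun i => ?_⟩
    by_cases hi : i ∈ Set.range σ
    · obtain ⟨j, rfl⟩ := hi
      exact h.2 j
    · rw [hk i hi]
      exact vanishes_zero _ _
  · exact fun h => ⟨h.1, fun i => h.2 (σ i)⟩

theorem generalDim_comp {r e n N : ℕ} (σ : Fin n → Fin N) (hσ : Function.Injective σ)
    (k : Fin N → ℕ) (hk : ∀ i, i ∉ Set.range σ → k i = 0) :
    generalDim r e (fun i => k (σ i)) = generalDim r e k := by
  classical
  unfold generalDim
  congr 1
  ext x
  constructor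
  · rintro ⟨p, hp⟩
    refine ⟨fun j => if h : ∃ i, σ i = j then p h.choose else 0, ?_⟩
    rw [← fat_comp σ _ k hk, ← hp]
    have h1 : (fun i => (if h : ∃ i', σ i' = σ i then p h.choose else 0)) = p := by
      funext i
      have h2 : ∃ i', σ i' = σ i := ⟨i, rfl⟩
      rw [dif_pos h2]
      congr 1
      exact hσ h2.choose_spec
    rw [h1]
  · rintro ⟨P, hP⟩
    exact ⟨fun i => P (σ i), by rw [fat_comp σ P k hk]; exact hP⟩

/-- A class pairs non-negatively with a curve if it does so with the components. -/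
theorem pair_of_irred {ι : Type*} [Fintype ι] {p : ι → Fin (2 + 1) → ℂ} (a : ℕ) (m : ι → ℕ) :
    ∀ (f : ℕ) (F : MvPolynomial (Fin (2 + 1)) ℂ), F ≠ 0 → F.IsHomogeneous f →
    (∀ (A : MvPolynomial (Fin (2 + 1)) ℂ) (e : ℕ) (κ : ι → ℕ), Irreducible A → A ∣ F →
      A.IsHomogeneous e → 1 ≤ e → e ≤ f →
      (∀ i, VanishesToOrder A (p i) (κ i) ∧ ¬ VanishesToOrder A (p i) (κ i + 1)) →
      ∑ i, m i * κ i ≤ a * e) →
    ∀ k : ι → ℕ, (∀ i, VanishesToOrder F (p i) (k i)) → ∑ i, m i * k i ≤ a * f := by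
  classical
  intro f
  induction f using Nat.strong_induction_on with
  | _ f ih =>
    intro F hF0 hFf H k hk
    rcases Nat.eq_zero_or_pos f with h0 | hpos
    · subst h0
      refine le_of_eq_of_le (Finset.sum_eq_zero fun i _ => ?_) (Nat.zero_le _)
      by_cases hki : k i = 0
      · rw [hki, Nat.mul_zero]
      · exfalso
        exact hF0 (eq_zero_of_vanishes F hFf _ (Nat.pos_of_ne_zero hki) (hk i))
    · have hnu : ¬ IsUnit F := by
        intro h
        have h1 := ((MvPolynomial.isUnit_iff_totalDegree_of_isReduced (R := ℂ)).1 h).2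
        rw [hFf.totalDegree hF0] at h1
        omega
      obtain ⟨A, hA, G, hG⟩ := WfDvdMonoid.exists_irreducible_factor hnu hF0
      have hA0 := hA.ne_zero
      have hG0 : G ≠ 0 := by
        rintro rfl
        exact hF0 (by rw [hG, mul_zero])
      obtain ⟨e, g, hAe, hGg, heg⟩ := hom_of_mul (hG ▸ hFf) hA0 hG0
      have he : 1 ≤ e := by
        by_contra hcon
        have h1 : e = 0 := by omega
        subst h1
        have h2 := totalDegree_eq_zero_iff_eq_C.1 (hAe.totalDegree hA0)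
        apply hA.not_isUnit
        rw [h2]
        refine (isUnit_iff_ne_zero.2 fun h3 => hA0 ?_).map (C : ℂ →+* MvPolynomial (Fin (2 + 1)) ℂ)
        rw [h2, h3, map_zero]
      choose κ hκe hκ1 hκ2 using fun i => exists_mult hAe hA0 (p i)
      have h1 := H A e κ hA ⟨G, hG⟩ hAe he (by omega) fun i => ⟨hκ1 i, hκ2 i⟩
      have h2 := ih g (by omega) G hG0 hGg
        (fun A' e' κ' hA' hA'G hA'e he' he'g hκ' => H A' e' κ' hA'
          (hA'G.trans ⟨A, by rw [hG, mul_comm]⟩) hA'e he' (by omega) hκ')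
        (fun i => k i - κ i) fun i => vanishes_of_mul (hκ2 i) (hG ▸ hk i)
      have h3 : ∑ i, m i * k i ≤ ∑ i, m i * κ i + ∑ i, m i * (k i - κ i) := by
        rw [← Finset.sum_add_distrib]
        refine Finset.sum_le_sum fun i _ => ?_
        rw [← Nat.mul_add]
        exact Nat.mul_le_mul_left _ (by omega)
      have h4 : a * f = a * e + a * g := by rw [← heg, Nat.mul_add]
      omega

/-- The nine points of the grid. -/
noncomputable def grid9 (x : Fin 3 × Fin 3) : Fin (2 + 1) → ℂ := ![1, (x.1 : ℕ), (x.2 : ℕ)]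

theorem grid9_inj : Function.Injective grid9 := by
  intro x y h
  have h1 := congrFun h 1
  have h2 := congrFun h 2
  simp only [grid9] at h1 h2
  have e1 : ((x.1 : ℕ) : ℂ) = ((y.1 : ℕ) : ℂ) := h1
  have e2 : ((x.2 : ℕ) : ℂ) = ((y.2 : ℕ) : ℂ) := h2
  have e3 : (x.1 : ℕ) = (y.1 : ℕ) := by exact_mod_cast e1
  have e4 : (x.2 : ℕ) = (y.2 : ℕ) := by exact_mod_cast e2
  exact Prod.ext (Fin.ext e3) (Fin.ext e4)

/-- The cubic `x (x - z) (x - 2 z)`. -/
noncomputable def cub (c : Fin (2 + 1)) : MvPolynomial (Fin (2 + 1)) ℂ :=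
  ∏ j : Fin 3, (X c - C ((j : ℕ) : ℂ) * X 0)

theorem lin_hom (c : Fin (2 + 1)) (a : ℂ) :
    (X c - C a * X 0 : MvPolynomial (Fin (2 + 1)) ℂ).IsHomogeneous 1 := by
  refine (isHomogeneous_X ℂ c).sub ?_
  have := (isHomogeneous_C (Fin (2 + 1)) a).mul (isHomogeneous_X ℂ (0 : Fin (2 + 1)))
  rwa [Nat.zero_add] at this

theorem cub_hom (c : Fin (2 + 1)) : (cub c).IsHomogeneous 3 := by
  have h := IsHomogeneous.prod (Finset.univ : Finset (Fin 3))
    (fun j => (X c - C ((j : ℕ) : ℂ) * X 0 : MvPolynomial (Fin (2 + 1)) ℂ)) (fun _ => 1)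
    fun j _ => lin_hom c _
  have h3 : ∑ _j : Fin 3, 1 = 3 := by decide
  rw [h3] at h
  exact h

theorem cub_van (x : Fin 3 × Fin 3) : VanishesToOrder (cub 1) (grid9 x) 1 ∧
    VanishesToOrder (cub 2) (grid9 x) 1 := by
  constructor
  · rw [vanishes_one_iff]
    unfold cub
    rw [map_prod]
    refine Finset.prod_eq_zero (Finset.mem_univ x.1) ?_
    have h1 : grid9 x 0 = 1 := rfl
    have h2 : grid9 x 1 = ((x.1 : ℕ) : ℂ) := rfl
    rw [map_sub, map_mul, eval_X, eval_X, eval_C, h1, h2]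
    ring
  · rw [vanishes_one_iff]
    unfold cub
    rw [map_prod]
    refine Finset.prod_eq_zero (Finset.mem_univ x.2) ?_
    have h1 : grid9 x 0 = 1 := rfl
    have h2 : grid9 x 2 = ((x.2 : ℕ) : ℂ) := rfl
    rw [map_sub, map_mul, eval_X, eval_X, eval_C, h1, h2]
    ring

/-- No irreducible curve is a component of both cubics. -/
theorem not_dvd_both {A : MvPolynomial (Fin (2 + 1)) ℂ} (hA : Irreducible A) :
    ¬ A ∣ cub 1 ∨ ¬ A ∣ cub 2 := by
  by_contra hcon
  push Not at hcon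
  obtain ⟨h1, h2⟩ := hcon
  unfold cub at h1 h2
  obtain ⟨i, _, hi⟩ := (hA.prime.dvd_finsetProd_iff _).1 h1
  obtain ⟨j, _, hj⟩ := (hA.prime.dvd_finsetProd_iff _).1 h2
  -- the two lines are not proportional
  have hne : ∀ (c : Fin (2 + 1)) (a : ℂ), c ≠ 0 →
      (X c - C a * X 0 : MvPolynomial (Fin (2 + 1)) ℂ) ≠ 0 := by
    intro c a hc h
    have h3 := congrArg (eval fun l : Fin (2 + 1) => if l = c then (1 : ℂ) else 0) h
    rw [map_sub, map_mul, eval_X, eval_X, eval_C, if_pos rfl, if_neg hc.symm, map_zero] at h3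
    norm_num at h3
  have hunit : ∀ (c : Fin (2 + 1)) (a : ℂ), c ≠ 0 →
      A ∣ (X c - C a * X 0 : MvPolynomial (Fin (2 + 1)) ℂ) →
      ∃ u : ℂ, u ≠ 0 ∧ (X c - C a * X 0 : MvPolynomial (Fin (2 + 1)) ℂ) = A * C u := by
    intro c a hc h
    obtain ⟨B, hB⟩ := h
    have hB0 : B ≠ 0 := by
      rintro rfl
      exact hne c a hc (by rw [hB, mul_zero])
    obtain ⟨e, b, he, hb, heb⟩ := hom_of_mul (hB ▸ lin_hom c a) hA.ne_zero hB0
    have he1 : e ≠ 0 := by
      rintro rfl
      have h2 := totalDegree_eq_zero_iff_eq_C.1 (he.totalDegree hA.ne_zero)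
      apply hA.not_isUnit
      rw [h2]
      refine (isUnit_iff_ne_zero.2 fun h3 => hA.ne_zero ?_).map
        (C : ℂ →+* MvPolynomial (Fin (2 + 1)) ℂ)
      rw [h2, h3, map_zero]
    have hb0 : b = 0 := by omega
    subst hb0
    have h2 := totalDegree_eq_zero_iff_eq_C.1 (hb.totalDegree hB0)
    refine ⟨coeff 0 B, fun h3 => hB0 (by rw [h2, h3, map_zero]), ?_⟩
    rw [← h2]
    exact hB
  obtain ⟨u, hu, e1⟩ := hunit 1 _ (by decide) hi
  obtain ⟨v, hv, e2⟩ := hunit 2 _ (by decide) hj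
  have e3 := congrArg (eval fun l : Fin (2 + 1) => if l = 2 then (1 : ℂ) else 0) e1
  have e4 := congrArg (eval fun l : Fin (2 + 1) => if l = 2 then (1 : ℂ) else 0) e2
  rw [map_sub, map_mul, eval_X, eval_X, eval_C, map_mul, eval_C, if_neg (by decide),
    if_neg (by decide)] at e3
  rw [map_sub, map_mul, eval_X, eval_X, eval_C, map_mul, eval_C, if_pos rfl,
    if_neg (by decide)] at e4
  have e5 : (eval fun l : Fin (2 + 1) => if l = 2 then (1 : ℂ) else 0) A = 0 := by
    have : (eval fun l : Fin (2 + 1) => if l = 2 then (1 : ℂ) else 0) A * u = 0 := by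
      rw [← e3]
      ring
    exact (mul_eq_zero.1 this).resolve_right hu
  rw [e5] at e4
  norm_num at e4

/-- The multiplicities of an effective class at nine points. -/
theorem nine {n e : ℕ} {k : Fin n → ℕ} (h : 1 ≤ generalDim 2 e k) (S : Finset (Fin n))
    (hS : S.card ≤ 9) : ∑ i ∈ S, k i ≤ 3 * e := by
  classical
  -- an injection of `S` into the grid
  have hcard : Fintype.card S ≤ Fintype.card (Fin 3 × Fin 3) := by
    rw [Fintype.card_coe, Fintype.card_prod, Fintype.card_fin]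
    exact hS
  obtain ⟨g⟩ := Function.Embedding.nonempty_of_card_le hcard
  -- the points
  set P : Fin n → Fin (2 + 1) → ℂ := fun i => if hi : i ∈ S then grid9 (g ⟨i, hi⟩) else 0 with hP
  have h1 : 1 ≤ Module.finrank ℂ (fatForms 2 e P k) :=
    h.trans (Nat.sInf_le ⟨P, rfl⟩)
  obtain ⟨F, hF, hF0⟩ : ∃ F ∈ fatForms 2 e P k, F ≠ 0 := by
    by_contra hcon
    push Not at hcon
    have h2 : fatForms 2 e P k = ⊥ := by
      rw [eq_bot_iff]
      intro F hF
      rw [Submodule.mem_bot]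
      exact hcon F hF
    rw [h2, finrank_bot] at h1
    omega
  have h2 := pair_of_irred (p := fun i : S => grid9 (g i)) 3 (fun _ => 1) e F hF0 hF.1
    (fun A e' κ hA _ hAe _ _ hκ => by
      have key : ∀ c : Fin (2 + 1), (∀ x, VanishesToOrder (cub c) (grid9 x) 1) → ¬ A ∣ cub c →
          ∑ i : S, κ i * 1 ≤ e' * 3 := by
        intro c hc hdvd
        exact bezout (fun i : S => grid9 (g i)) (fun i => by
          have : grid9 (g i) 0 = 1 := rfl
          rw [this]
          exact one_ne_zero) (sep_of_affine (fun i => rfl) fun i j hij =>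
            g.injective (grid9_inj hij)) hA hAe (cub_hom c) hdvd κ (fun _ => 1)
          (fun i => (hκ i).1) fun i => hc _
      have h3 : ∑ i : S, κ i * 1 ≤ e' * 3 := by
        rcases not_dvd_both hA with h4 | h4
        · exact key 1 (fun x => (cub_van x).1) h4
        · exact key 2 (fun x => (cub_van x).2) h4
      have h4 : ∑ i : S, 1 * κ i = ∑ i : S, κ i * 1 :=
        Finset.sum_congr rfl fun i _ => Nat.mul_comm _ _
      rw [h4]
      omega) (fun i => k i) fun i => by
      have h3 := hF.2 i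
      have h4 : P i = grid9 (g i) := by
        rw [hP]
        dsimp only
        rw [dif_pos i.2]
      rw [h4] at h3
      exact h3
  have h3 : ∑ i : S, 1 * k i = ∑ i ∈ S, k i := by
    rw [← Finset.sum_coe_sort S]
    exact Finset.sum_congr rfl fun i _ => Nat.one_mul _
  rw [h3] at h2
  exact h2

end Pool.Agent.H74.KV
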